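import Pool.Agent.Y153.CDR.Fin

/-!
# Irrational fourfolds with parametrizations of all degrees divisible by 2 or by 3

For sixteen arbitrary distinct complex numbers `rⱼ` the affine hypersurface
`y² - disc(e) z² = ∏ⱼ P_e(rⱼ)`, `P_e(T) = T³ + e₀ T² + e₁ T + e₂`, is irreducible, is not rational,
and has unirational parametrizations of every degree divisible by `2` or by `3`.
-/

set_option autoImplicit false

namespace Pool.Agent.Results.MP_2e017d_ag.SixteenConstants

open Pool.Agent.Helper346.CD Pool.Agent.Y153.CDR

/-- For all pairwise distinct `r 0, ..., r 15` the fourfold `hyp r = 0` is irreducible, has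
unirational parametrizations of all degrees divisible by `2` or by `3`, and is not rational. -/
theorem result (r : Fin 16 → ℂ) (hr : Function.Injective r) : Irreducible (hyp r) ∧
    (∀ d : ℕ, 0 < d → 2 ∣ d ∨ 3 ∣ d → HasParam (HypRing 4 (hyp r)) 4 d) ∧
    ¬ IsRat (HypRing 4 (hyp r)) 4 :=
  main r hr

end Pool.Agent.Results.MP_2e017d_ag.SixteenConstants
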